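import Pool.Agent.L0h41.Quad

set_option autoImplicit false

/-!
# The error term of Conjecture F is not `o(log log x)`, for every admissible triple

For EVERY admissible triple `(a, b, c)`, with `f(t) = a t² + b t + c`, every interval `[x, x + Y]`, `Y₀ ≤ Y ≤ x`,
contains a string of more than `κ log Y log log Y` consecutive integers `t` for which `f(t)` has a prime factor
`p ≤ Y^(1/10)`, `p < f(t)`, and so an integer `N` with
`|π_f(N) - M(N)| ≥ κ C(a, b, c) (log Y / log x) log log Y` for each of the two main terms `M(N) = C(a, b, c) Li(N)` and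
`M(N) = 2 C(a, b, c) ∑_{t ≤ N} 1 / log f(t)` (and for every other main term with increments of the right size).
-/

namespace Pool.Agent.Results.MP_a17b09_nt.ErrorTerm

open Finset Filter MeasureTheory Topology

/-- The polynomial. -/
def f (a b c : ℤ) (t : ℕ) : ℤ := a * (t : ℤ) ^ 2 + b * (t : ℤ) + c

/-- The admissible triples of Conjecture F. -/
def Admissible (a b c : ℤ) : Prop :=
  0 < a ∧ Int.gcd (Int.gcd a b : ℤ) c = 1 ∧ ¬ (Even (a + b) ∧ Even c) ∧ ¬ IsSquare (b ^ 2 - 4 * a * c)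

/-- The products which define `C(a, b, c)`, over the primes `p ≤ z` (`jacobiSym Δ p` is the Legendre symbol). -/
noncomputable def partialC (a b c : ℤ) (z : ℕ) : ℝ :=
  (if Odd (a + b) then 1 / 2 else 1) *
    (∏ p ∈ (Icc 3 z).filter (fun p : ℕ => p.Prime ∧ (p : ℤ) ∣ a ∧ (p : ℤ) ∣ b), (p : ℝ) / (p - 1)) *
    ∏ p ∈ (Icc 3 z).filter (fun p : ℕ => p.Prime ∧ ¬ (p : ℤ) ∣ a),
      (1 - (jacobiSym (b ^ 2 - 4 * a * c) p : ℝ) / (p - 1))

/-- `π_f(N)`: the number of the integers `1 ≤ t ≤ N` for which `f(t)` is a (positive) prime. -/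
def count (a b c : ℤ) (N : ℕ) : ℕ := ((Icc 1 N).filter (fun t : ℕ => (f a b c t).toNat.Prime)).card

/-- `Li(x)`, the integral of `1 / log t` from `2` to `x`. -/
noncomputable def Li (x : ℝ) : ℝ := ∫ t in (2 : ℝ)..x, 1 / Real.log t

/-- The sum of `1 / log f(t)` over the integers `1 ≤ t ≤ N` with `f(t) ≥ 2`. -/
noncomputable def logSum (a b c : ℤ) (N : ℕ) : ℝ :=
  ∑ t ∈ (Icc 1 N).filter (fun t : ℕ => 2 ≤ f a b c t), 1 / Real.log ((f a b c t : ℤ) : ℝ)

lemma partialC_eq (a b c : ℤ) (z : ℕ) : partialC a b c z = Pool.Agent.W468.ConjF.CF a b c z := by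
  unfold partialC Pool.Agent.W468.ConjF.CF
  have e0 : (if Odd (a + b) then (1 / 2 : ℝ) else 1) = if (2 : ℤ) ∣ a + b then 1 else 1 / 2 := by
    by_cases h : (2 : ℤ) ∣ a + b
    · rw [if_pos h, if_neg]
      rw [Int.not_odd_iff_even]
      exact even_iff_two_dvd.2 h
    · rw [if_neg h, if_pos]
      rw [← Int.not_even_iff_odd]
      exact fun h2 => h (even_iff_two_dvd.1 h2)
  rw [e0]
  congr 1
  · congr 1
    apply prod_congr _ (fun _ _ => rfl)
    ext p
    simp only [mem_filter, mem_Icc, mem_range]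
    constructor
    · rintro ⟨h1, h2⟩
      exact ⟨by omega, h2.1, h1.1, h2.2⟩
    · rintro ⟨h1, h2⟩
      exact ⟨⟨h2.2.1, by omega⟩, h2.1, h2.2.2⟩
  · apply prod_congr _ (fun _ _ => rfl)
    ext p
    simp only [mem_filter, mem_Icc, mem_range]
    constructor
    · rintro ⟨h1, h2⟩
      exact ⟨by omega, h2.1, h1.1, h2.2⟩
    · rintro ⟨h1, h2⟩
      exact ⟨⟨h2.2.1, by omega⟩, h2.1, h2.2.2⟩

lemma Li_int {u v : ℝ} (hu : 2 ≤ u) (hv : 2 ≤ v) :
    IntervalIntegrable (fun t : ℝ => 1 / Real.log t) volume u v := by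
  apply ContinuousOn.intervalIntegrable
  intro t ht
  have ht2 : 2 ≤ t := by
    rcases le_total u v with h | h
    · rw [Set.uIcc_of_le h] at ht; linarith [ht.1]
    · rw [Set.uIcc_of_ge h] at ht; linarith [ht.1]
  have hl : 0 < Real.log t := Real.log_pos (by linarith)
  apply ContinuousAt.continuousWithinAt
  exact continuousAt_const.div (Real.continuousAt_log (by linarith)) hl.ne'

lemma Li_step (n : ℕ) (hn : 2 ≤ n) : 1 / Real.log ((n : ℝ) + 1) ≤ Li ((n + 1 : ℕ) : ℝ) - Li n := by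
  unfold Li
  have hn' : (2 : ℝ) ≤ n := by exact_mod_cast hn
  rw [intervalIntegral.integral_interval_sub_left (Li_int le_rfl (by push_cast; linarith)) (Li_int le_rfl hn')]
  have h1 : 1 / Real.log ((n : ℝ) + 1) = ∫ _t in (n : ℝ)..((n + 1 : ℕ) : ℝ), 1 / Real.log ((n : ℝ) + 1) := by
    rw [intervalIntegral.integral_const, smul_eq_mul]; push_cast; ring
  rw [h1]
  apply intervalIntegral.integral_mono_on (by push_cast; linarith) (by simp)
    (Li_int hn' (by push_cast; linarith))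
  intro t ht
  have ht1 := ht.1
  have ht2 := ht.2
  push_cast at ht2
  have hl : 0 < Real.log t := Real.log_pos (by linarith)
  exact one_div_le_one_div_of_le hl (Real.log_le_log (by linarith) ht2)

lemma logSum_step (a b c : ℤ) (n : ℕ) (h : 2 ≤ f a b c (n + 1)) :
    logSum a b c (n + 1) - logSum a b c n = 1 / Real.log ((f a b c (n + 1) : ℤ) : ℝ) := by
  unfold logSum
  have e : (Icc 1 (n + 1)).filter (fun t : ℕ => 2 ≤ f a b c t) =
      insert (n + 1) ((Icc 1 n).filter (fun t : ℕ => 2 ≤ f a b c t)) := by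
    ext t
    simp only [mem_filter, mem_Icc, mem_insert]
    constructor
    · rintro ⟨h1, h2⟩
      rcases Nat.lt_or_ge n t with h3 | h3
      · left; omega
      · right; exact ⟨⟨h1.1, h3⟩, h2⟩
    · rintro (h1 | h1)
      · subst h1; exact ⟨⟨by omega, le_rfl⟩, h⟩
      · exact ⟨⟨h1.1.1, by omega⟩, h1.2⟩
  rw [e, sum_insert (by simp)]
  ring

/-- the size of the values -/
lemma f_size (a b c : ℤ) (ha : 0 < a) : ∃ n₀ : ℕ, ∀ n : ℕ, n₀ ≤ n → 2 ≤ f a b c n ∧ f a b c n ≤ (n : ℤ) ^ 3 := by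
  refine ⟨(a + |b| + |c| + 2).toNat, fun n hn => ?_⟩
  have h1 : a + |b| + |c| + 2 ≤ n := by
    have := Int.self_le_toNat (a + |b| + |c| + 2)
    omega
  have hb := abs_nonneg b
  have hc := abs_nonneg c
  have hb1 := neg_abs_le b
  have hc1 := neg_abs_le c
  have hb2 := le_abs_self b
  have hc2 := le_abs_self c
  have hn2 : (2 : ℤ) ≤ n := by linarith
  unfold f
  constructor
  · have h2 : (n : ℤ) ^ 2 ≤ a * (n : ℤ) ^ 2 := by nlinarith [sq_nonneg (n : ℤ)]
    have h3 : -(|b| * n) ≤ b * n := by nlinarith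
    nlinarith
  · have hsq : (n : ℤ) ≤ (n : ℤ) ^ 2 := by nlinarith
    have h3 : b * (n : ℤ) ≤ |b| * (n : ℤ) ^ 2 :=
      (mul_le_mul_of_nonneg_right hb2 (by omega)).trans (mul_le_mul_of_nonneg_left hsq hb)
    have h4 : c ≤ |c| * (n : ℤ) ^ 2 := by
      have h7 : |c| * 1 ≤ |c| * (n : ℤ) ^ 2 := mul_le_mul_of_nonneg_left (by linarith) hc
      linarith
    have h5 : a * (n : ℤ) ^ 2 + b * n + c ≤ (a + |b| + |c|) * (n : ℤ) ^ 2 := by linarith
    have h6 : (a + |b| + |c|) * (n : ℤ) ^ 2 ≤ n * (n : ℤ) ^ 2 := by nlinarith [sq_nonneg (n : ℤ)]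
    calc a * (n : ℤ) ^ 2 + b * n + c ≤ (a + |b| + |c|) * (n : ℤ) ^ 2 := h5
      _ ≤ n * (n : ℤ) ^ 2 := h6
      _ = (n : ℤ) ^ 3 := by ring

/-- **The error term of Conjecture F, for every admissible triple, in every short interval.** Let `(a, b, c)` be
admissible.

(1) The products converge to a number `C(a, b, c) > 0`.

There are `κ > 0` and `Y₀` such that for all integers `x` and all real `Y` with `Y₀ ≤ Y ≤ x`:

(2) there are consecutive integers `n, n + 1, ..., n + ⌊ℓ⌋` in `(x, x + Y]`, `ℓ = κ log Y log log Y`, such that each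
value `f(t)` at one of them is divisible by a prime `p ≤ Y^(1/10)` with `p < f(t)`;

(3) for every `δ ≥ 0` and every function `M` with `M(n + 1) - M(n) ≥ δ / log x` for `x ≤ n ≤ x + Y - 1` there is an
integer `N` in `[x, x + Y]` with `|π_f(N) - M(N)| ≥ κ δ (log Y / log x) log log Y`;

(4) for every `C ≥ 0` (for instance `C = C(a, b, c)`) there is an integer `N` in `[x, x + Y]` with
`|π_f(N) - C Li(N)| ≥ κ C (log Y / log x) log log Y`, and an integer `N` in `[x, x + Y]` with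
`|π_f(N) - 2 C ∑_{t ≤ N} 1 / log f(t)| ≥ κ C (log Y / log x) log log Y`. -/
theorem result (a b c : ℤ) (h : Admissible a b c) :
    (∃ C : ℝ, 0 < C ∧ Tendsto (partialC a b c) atTop (𝓝 C)) ∧
    ∃ κ Y₀ : ℝ, 0 < κ ∧ ∀ (x : ℕ) (Y : ℝ), Y₀ ≤ Y → Y ≤ x →
      (∃ n : ℕ, x < n ∧ (n : ℝ) + κ * Real.log Y * Real.log (Real.log Y) ≤ x + Y ∧
        ∀ k : ℕ, (k : ℝ) ≤ κ * Real.log Y * Real.log (Real.log Y) →
          ∃ p : ℕ, p.Prime ∧ (p : ℝ) ≤ Y ^ (1 / 10 : ℝ) ∧ (p : ℤ) ∣ f a b c (n + k) ∧ (p : ℤ) < f a b c (n + k)) ∧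
      (∀ (δ : ℝ) (M : ℕ → ℝ), 0 ≤ δ → (∀ n : ℕ, x ≤ n → (n : ℝ) + 1 ≤ x + Y → δ / Real.log x ≤ M (n + 1) - M n) →
        ∃ N : ℕ, x ≤ N ∧ (N : ℝ) ≤ x + Y ∧
          κ * δ * (Real.log Y / Real.log x) * Real.log (Real.log Y) ≤ |(count a b c N : ℝ) - M N|) ∧
      ∀ C : ℝ, 0 ≤ C →
        (∃ N : ℕ, x ≤ N ∧ (N : ℝ) ≤ x + Y ∧
          κ * C * (Real.log Y / Real.log x) * Real.log (Real.log Y) ≤ |(count a b c N : ℝ) - C * Li N|) ∧
        (∃ N : ℕ, x ≤ N ∧ (N : ℝ) ≤ x + Y ∧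
          κ * C * (Real.log Y / Real.log x) * Real.log (Real.log Y) ≤
            |(count a b c N : ℝ) - 2 * C * logSum a b c N|) := by
  obtain ⟨ha, hg, hpar, hD⟩ := h
  refine ⟨?_, ?_⟩
  · obtain ⟨K, hK, hKt⟩ := Pool.Agent.W468.ConjF.CF_tendsto a b c ha hD
    refine ⟨K, hK, ?_⟩
    have e : partialC a b c = fun z => Pool.Agent.W468.ConjF.CF a b c z := funext (partialC_eq a b c)
    rw [e]
    exact hKt
  obtain ⟨κ₁, hκ₁, Y₁, h1⟩ := Pool.Agent.L0h41.Quad.strings a b c ha hg hD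
  obtain ⟨κ₂, hκ₂, Y₂, h2⟩ := Pool.Agent.L0h41.Quad.omega_gen a b c ha hg hD
  obtain ⟨n₀, hn₀⟩ := f_size a b c ha
  obtain ⟨κ, hκ⟩ : ∃ κ : ℝ, κ = min κ₁ (κ₂ / 6) := ⟨_, rfl⟩
  have hκ0 : 0 < κ := by rw [hκ]; exact lt_min hκ₁ (by positivity)
  have hκ1 : κ ≤ κ₁ := by rw [hκ]; exact min_le_left _ _
  have hκ2 : κ ≤ κ₂ / 6 := by rw [hκ]; exact min_le_right _ _
  refine ⟨κ, max (max Y₁ Y₂) (max n₀ 3), hκ0, fun x Y hY hYx => ?_⟩
  have hY1 : Y₁ ≤ Y := ((le_max_left _ _).trans (le_max_left _ _)).trans hY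
  have hY2 : Y₂ ≤ Y := ((le_max_right _ _).trans (le_max_left _ _)).trans hY
  have hYn : (n₀ : ℝ) ≤ Y := ((le_max_left _ _).trans (le_max_right _ _)).trans hY
  have hY3 : (3 : ℝ) ≤ Y := ((le_max_right _ _).trans (le_max_right _ _)).trans hY
  have hxn : n₀ ≤ x := by exact_mod_cast hYn.trans hYx
  have hx3 : (3 : ℝ) ≤ x := hY3.trans hYx
  have hlx : 0 < Real.log x := Real.log_pos (by linarith)
  have hlogY : 1 < Real.log Y := by
    rw [Real.lt_log_iff_exp_lt (by linarith)]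
    linarith [Real.exp_one_lt_d9]
  have hllY : 0 < Real.log (Real.log Y) := Real.log_pos hlogY
  have hR : 0 ≤ Real.log Y / Real.log x * Real.log (Real.log Y) := by positivity
  have hgen : ∀ (δ : ℝ) (M : ℕ → ℝ), 0 ≤ δ →
      (∀ n : ℕ, x ≤ n → (n : ℝ) + 1 ≤ x + Y → δ / Real.log x ≤ M (n + 1) - M n) →
      ∃ N : ℕ, x ≤ N ∧ (N : ℝ) ≤ x + Y ∧
        κ₂ * δ * (Real.log Y / Real.log x) * Real.log (Real.log Y) ≤ |(count a b c N : ℝ) - M N| :=
    fun δ M hδ hM => h2 Y x hY2 hYx δ M hδ hM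
  have hcube : ∀ n : ℕ, x ≤ n → (n : ℝ) + 1 ≤ x + Y → Real.log ((n : ℝ) + 1) ≤ 2 * Real.log x := by
    intro n hn hn2
    have h3 : (n : ℝ) + 1 ≤ (x : ℝ) ^ 2 := by nlinarith
    have h4 := Real.log_le_log (by positivity) h3
    rw [Real.log_pow] at h4
    exact_mod_cast h4
  refine ⟨?_, ?_, ?_⟩
  · obtain ⟨n, hn1, hn2, hn3⟩ := h1 Y hY1 x hYx
    have h5 : κ * Real.log Y * Real.log (Real.log Y) ≤ κ₁ * Real.log Y * Real.log (Real.log Y) := by gcongr
    refine ⟨n, hn1, by linarith, fun k hk => ?_⟩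
    obtain ⟨p, p1, p2, p3, p4⟩ := hn3 k (hk.trans h5)
    exact ⟨p, p1, p2, p3, p4⟩
  · intro δ M hδ hM
    obtain ⟨N, hN1, hN2, hN3⟩ := hgen δ M hδ hM
    refine ⟨N, hN1, hN2, le_trans ?_ hN3⟩
    have h5 : κ * δ * (Real.log Y / Real.log x * Real.log (Real.log Y)) ≤
        κ₂ * δ * (Real.log Y / Real.log x * Real.log (Real.log Y)) := by
      gcongr
      linarith
    linarith
  · intro C hC
    have hfin : ∀ M : ℕ → ℝ,
        (∀ n : ℕ, x ≤ n → (n : ℝ) + 1 ≤ x + Y → C / 6 / Real.log x ≤ M (n + 1) - M n) →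
        ∃ N : ℕ, x ≤ N ∧ (N : ℝ) ≤ x + Y ∧
          κ * C * (Real.log Y / Real.log x) * Real.log (Real.log Y) ≤ |(count a b c N : ℝ) - M N| := by
      intro M hM
      obtain ⟨N, hN1, hN2, hN3⟩ := hgen (C / 6) M (by positivity) hM
      refine ⟨N, hN1, hN2, le_trans ?_ hN3⟩
      have h5 : κ * C * (Real.log Y / Real.log x * Real.log (Real.log Y)) ≤
          κ₂ / 6 * C * (Real.log Y / Real.log x * Real.log (Real.log Y)) := by gcongr
      calc κ * C * (Real.log Y / Real.log x) * Real.log (Real.log Y)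
          = κ * C * (Real.log Y / Real.log x * Real.log (Real.log Y)) := by ring
        _ ≤ κ₂ / 6 * C * (Real.log Y / Real.log x * Real.log (Real.log Y)) := h5
        _ = κ₂ * (C / 6) * (Real.log Y / Real.log x) * Real.log (Real.log Y) := by ring
    constructor
    · apply hfin (fun N => C * Li N)
      intro n hn hn2
      have hn3 : 2 ≤ n := by
        have : (2 : ℝ) ≤ x := by linarith
        have : 2 ≤ x := by exact_mod_cast this
        omega
      have h6 := Li_step n hn3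
      have h7 := hcube n hn hn2
      have hn3r : (2 : ℝ) ≤ n := by exact_mod_cast hn3
      have h8 : 0 < Real.log ((n : ℝ) + 1) := Real.log_pos (by linarith)
      have h9 : 1 / (2 * Real.log x) ≤ 1 / Real.log ((n : ℝ) + 1) := one_div_le_one_div_of_le h8 h7
      have h10 : C * (1 / (2 * Real.log x)) ≤ C * (Li ((n + 1 : ℕ) : ℝ) - Li n) :=
        mul_le_mul_of_nonneg_left (h9.trans h6) hC
      have h11 : C / 6 / Real.log x ≤ C * (1 / (2 * Real.log x)) := by
        rw [div_div, mul_one_div]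
        apply div_le_div_of_nonneg_left hC (by positivity)
        nlinarith
      rw [← mul_sub]
      linarith
    · apply hfin (fun N => 2 * C * logSum a b c N)
      intro n hn hn2
      obtain ⟨g1, g2⟩ := hn₀ (n + 1) (by omega)
      have h7 := hcube n hn hn2
      rw [← mul_sub, logSum_step a b c n g1]
      have g3 : (2 : ℝ) ≤ ((f a b c (n + 1) : ℤ) : ℝ) := by exact_mod_cast g1
      have g4 : ((f a b c (n + 1) : ℤ) : ℝ) ≤ ((n : ℝ) + 1) ^ 3 := by exact_mod_cast g2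
      have g5 : Real.log ((f a b c (n + 1) : ℤ) : ℝ) ≤ 6 * Real.log x := by
        have h12 := Real.log_le_log (by linarith) g4
        rw [Real.log_pow] at h12
        push_cast at h12
        linarith
      have g6 : 0 < Real.log ((f a b c (n + 1) : ℤ) : ℝ) := Real.log_pos (by linarith)
      have h9 : 1 / (6 * Real.log x) ≤ 1 / Real.log ((f a b c (n + 1) : ℤ) : ℝ) := one_div_le_one_div_of_le g6 g5
      have h10 : C * (1 / (6 * Real.log x)) ≤ 2 * C * (1 / Real.log ((f a b c (n + 1) : ℤ) : ℝ)) := by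
        have h13 : C * (1 / (6 * Real.log x)) ≤ C * (1 / Real.log ((f a b c (n + 1) : ℤ) : ℝ)) :=
          mul_le_mul_of_nonneg_left h9 hC
        have h14 : 0 ≤ C * (1 / Real.log ((f a b c (n + 1) : ℤ) : ℝ)) := by positivity
        linarith
      have h11 : C / 6 / Real.log x = C * (1 / (6 * Real.log x)) := by
        field_simp
      rw [h11]
      exact h10

end Pool.Agent.Results.MP_a17b09_nt.ErrorTerm
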