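import Pool.Agent.L0h41.PE.E

set_option autoImplicit false

/-!
# Almost primes `|f(x, y)|` with `x + y = n` and the smallest `x`, for almost all `n`, for ALL polynomials of degree
one in `y`

Let `f(x, y) = g(x) y + h(x)` with `g ≠ 0`, `h` in `ℤ[x]` coprime over `ℚ`, and suppose that `f` is not a polynomial
in `x + y`. For every `ε > 0` there is `κ > 0` such that for all large `λ` and `X` all but at most `ε X` of the integers
`n ≤ X` for which no prime divides all the numbers `f(x, n - x)` have at least `κ λ` representations `n = x + y` with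
`x, y ≥ 1`, `x ≤ λ log X`, such that `|f(x, y)| ≥ 2` has at most THREE prime factors, counted with multiplicity, all
of them `≥ X^(1/10)`. The same holds in all intervals of length `≥ X^θ`, with `k > 1/8 + 25/(12θ)` prime factors.

Proof: `f(x, n - x) = g(x) n + (h(x) - x g(x))` is a pencil of polynomials; `Pool/Agent/L0h41/PE`.
-/

namespace Pool.Agent.Results.MP_0da313_nt.LinearInY

open Finset Polynomial

/-- The polynomial `f(x, y) = g(x) y + h(x)`. -/
noncomputable def f (g h : ℤ[X]) (x y : ℤ) : ℤ := g.eval x * y + h.eval x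

/-- No prime divides `f(x, n - x)` for every `x`. -/
def NoFixed (g h : ℤ[X]) (n : ℕ) : Prop := ∀ p : ℕ, p.Prime → ∃ x : ℤ, ¬ (p : ℤ) ∣ f g h x ((n : ℤ) - x)

open Classical in
/-- The number of the integers `1 ≤ x ≤ T` for which there is a positive integer `y` with `x + y = n` such that
`|f(x, y)| ≥ 2` has at most `k` prime factors, counted with multiplicity, all of them `≥ w`. -/
noncomputable def smallX (g h : ℤ[X]) (n k T : ℕ) (w : ℝ) : ℕ :=
  ((Icc 1 T).filter (fun x : ℕ => ∃ y : ℕ, 1 ≤ y ∧ x + y = n ∧ 2 ≤ (f g h x y).natAbs ∧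
    (f g h x y).natAbs.primeFactorsList.length ≤ k ∧
    ∀ p : ℕ, p.Prime → (p : ℤ) ∣ f g h x y → w ≤ (p : ℝ))).card

lemma cnt_le (g h g' h' : ℤ[X]) (s : ℤ) (hs : s = 1 ∨ s = -1)
    (hval : ∀ (x : ℕ) (n : ℤ), g'.eval (x : ℤ) * n + h'.eval (x : ℤ) = s * f g h x (n - x)) (n k T : ℕ) (w : ℝ)
    (hT : T < n) : Pool.Agent.L0h41.PE.cntT g' h' k n T w ≤ smallX g h n k T w := by
  classical
  unfold Pool.Agent.L0h41.PE.cntT smallX
  apply card_le_card
  intro j hj
  rw [mem_filter] at hj ⊢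
  obtain ⟨h1, h2, h3, h4⟩ := hj
  have hj2 := mem_Icc.1 h1
  obtain ⟨b, hb⟩ : ∃ b : ℕ, n = j + b := ⟨n - j, by omega⟩
  have e : ((n : ℕ) : ℤ) - (j : ℤ) = (b : ℤ) := by rw [hb]; push_cast; ring
  rw [hval, e] at h2 h3
  rw [hval, e] at h4
  have hab : (s * f g h j b).natAbs = (f g h j b).natAbs := by
    rcases hs with h | h <;> rw [h] <;> simp
  have hnn : (s * f g h j b).toNat = (f g h j b).natAbs := by omega
  rw [hnn] at h3
  refine ⟨h1, b, by omega, hb.symm, by omega, h3, ?_⟩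
  intro p hp hd
  exact h4 p hp (hd.mul_left s)

open Classical in
theorem result (g h : ℤ[X]) (hg : g ≠ 0)
    (hcop : IsCoprime (g.map (Int.castRingHom ℚ)) (h.map (Int.castRingHom ℚ)))
    (hxy : ¬ ∃ F : ℤ[X], ∀ x y : ℤ, f g h x y = F.eval (x + y))
    (θ ε : ℝ) (k : ℕ) (hθ : 0 < θ) (hθ1 : θ ≤ 1) (hk : 1 / 8 + 25 / (12 * θ) < k) (hε : 0 < ε) :
    ∃ κ Λ : ℝ, 0 < κ ∧ 0 < Λ ∧ ∀ lam : ℝ, Λ ≤ lam → ∃ X₀ : ℕ, ∀ X : ℕ, X₀ ≤ X → ∀ Z L : ℕ,
      (X : ℝ) ^ θ ≤ L → Z + L ≤ X →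
      (((Ioc Z (Z + L)).filter (fun n : ℕ => NoFixed g h n ∧
        (smallX g h n k ⌊lam * Real.log X⌋₊ ((X : ℝ) ^ (θ / 10)) : ℝ) < κ * lam)).card : ℝ) ≤ ε * L := by
  obtain ⟨s, hs, hl⟩ : ∃ s : ℤ, (s = 1 ∨ s = -1) ∧ 0 < (C s * g).leadingCoeff := by
    rcases lt_or_gt_of_ne (leadingCoeff_ne_zero.2 hg) with h1 | h1
    · refine ⟨-1, Or.inr rfl, ?_⟩
      have e : C (-1 : ℤ) * g = -g := by simp
      rw [e, leadingCoeff_neg]
      omega
    · refine ⟨1, Or.inl rfl, ?_⟩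
      rwa [C_1, one_mul]
  obtain ⟨g', hg'⟩ : ∃ g' : ℤ[X], g' = C s * g := ⟨_, rfl⟩
  obtain ⟨h', hh'⟩ : ∃ h' : ℤ[X], h' = C s * (h - Polynomial.X * g) := ⟨_, rfl⟩
  have hss : (C s : ℤ[X]) * C s = 1 := by
    rw [← C_mul]
    rcases hs with h | h <;> rw [h] <;> simp
  have hval : ∀ (x n : ℤ), g'.eval x * n + h'.eval x = s * f g h x (n - x) := by
    intro x n
    rw [hg', hh']
    unfold f
    simp only [eval_mul, eval_C, eval_sub, eval_X]
    ring
  obtain ⟨u, v, R, hbez, hR⟩ := Pool.Agent.L0h41.PE.exists_bez g h hcop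
  have hbez' : (C s * (u + v * Polynomial.X)) * g' + (C s * v) * h' = C R := by
    rw [hg', hh', ← hbez]
    calc C s * (u + v * Polynomial.X) * (C s * g) + C s * v * (C s * (h - Polynomial.X * g)) =
        (C s * C s) * (u * g + v * h) := by ring
      _ = _ := by rw [hss, one_mul]
  have hdeg : 0 < g'.natDegree ∨ 0 < h'.natDegree := by
    by_contra hcon
    push Not at hcon
    obtain ⟨d1, d2⟩ := hcon
    apply hxy
    refine ⟨C (s * g'.coeff 0) * Polynomial.X + C (s * h'.coeff 0), ?_⟩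
    intro x y
    have e1 : g'.eval x = g'.coeff 0 := by
      rw [eq_C_of_natDegree_le_zero d1, eval_C, coeff_C_zero]
    have e2 : h'.eval x = h'.coeff 0 := by
      rw [eq_C_of_natDegree_le_zero d2, eval_C, coeff_C_zero]
    have h1 := hval x (x + y)
    rw [e1, e2, add_sub_cancel_left] at h1
    have h2 : s * s = 1 := by rcases hs with h | h <;> rw [h] <;> norm_num
    rw [eval_add, eval_mul, eval_C, eval_X, eval_C]
    calc f g h x y = (s * s) * f g h x y := by rw [h2, one_mul]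
      _ = s * (s * f g h x y) := by ring
      _ = s * (g'.coeff 0 * (x + y) + h'.coeff 0) := by rw [h1]
      _ = _ := by ring
  obtain ⟨κ, Λ, hκ, hΛ, H⟩ := Pool.Agent.L0h41.PE.pencil hbez' hR hdeg (by rw [hg']; exact hl) θ (ε / 2) k
    hθ hθ1 hk (half_pos hε)
  refine ⟨κ, Λ, hκ, hΛ, ?_⟩
  intro lam hlam
  have hl0 : 0 < lam := lt_of_lt_of_le hΛ hlam
  have ev := Pool.Agent.TH464.PW.logpow_rpow 1 (2 * lam / ε) θ (by positivity) hθ
  obtain ⟨X₀, hX₀⟩ := Filter.eventually_atTop.1 ((H lam hlam).and ev)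
  refine ⟨max X₀ 1, ?_⟩
  intro X hX Z L hL hZL
  have hX1 : 1 ≤ X := (le_max_right _ _).trans hX
  obtain ⟨b1, b2⟩ := hX₀ X ((le_max_left _ _).trans hX)
  have b1 := b1 Z L hL hZL
  rw [pow_one] at b2
  obtain ⟨T, hT⟩ : ∃ T : ℕ, T = ⌊lam * Real.log X⌋₊ := ⟨_, rfl⟩
  rw [← hT] at b1
  rw [← hT]
  have b3 : (T : ℝ) ≤ ε / 2 * L := by
    have hlog : 0 ≤ Real.log X := Real.log_nonneg (by exact_mod_cast hX1)
    rw [hT]
    refine (Nat.floor_le (by positivity)).trans ?_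
    have c1 := b2.trans hL
    rw [div_mul_eq_mul_div, div_le_iff₀ hε] at c1
    linarith
  obtain ⟨E1, hE1⟩ : ∃ E1, E1 = ((Ioc Z (Z + L)).filter (fun n => Pool.Agent.L0h41.PE.Adm g' h' n ∧
        (Pool.Agent.L0h41.PE.cntT g' h' k n T ((X : ℝ) ^ (θ / 10)) : ℝ) < κ * lam)) := ⟨_, rfl⟩
  rw [← hE1] at b1
  have hsub : (Ioc Z (Z + L)).filter (fun n : ℕ => NoFixed g h n ∧
        (smallX g h n k T ((X : ℝ) ^ (θ / 10)) : ℝ) < κ * lam) ⊆ E1 ∪ Ioc 0 T := by
    intro n hn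
    rw [mem_filter] at hn
    obtain ⟨a1, a2, a3⟩ := hn
    have hn1 : 1 ≤ n := by
      have := mem_Ioc.1 a1
      omega
    rw [mem_union]
    rcases Nat.lt_or_ge T n with h1 | h1
    · left
      rw [hE1, mem_filter]
      refine ⟨a1, ?_, ?_⟩
      · intro p hp
        obtain ⟨x, hx⟩ := a2 p hp
        have hp0 : (0 : ℤ) < p := by exact_mod_cast hp.pos
        refine ⟨(x % p).toNat, ?_⟩
        have hr : (((x % p).toNat : ℕ) : ℤ) = x % p := Int.toNat_of_nonneg (Int.emod_nonneg _ hp0.ne')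
        rw [hr]
        intro hd
        apply hx
        have e : ∀ t : ℤ, (C (n : ℤ) * g' + h').eval t = g'.eval t * n + h'.eval t := by
          intro t
          rw [eval_add, eval_mul, eval_C]
          ring
        have h3 : x % (p : ℤ) - x ∣ (C (n : ℤ) * g' + h').eval (x % (p : ℤ)) - (C (n : ℤ) * g' + h').eval x :=
          sub_dvd_eval_sub _ _ _
        have h4 : (p : ℤ) ∣ x % (p : ℤ) - x := (Int.dvd_self_sub_emod).neg_right.trans (by rw [neg_sub])
        rw [← e] at hd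
        have h5 := (dvd_iff_dvd_of_dvd_sub (h4.trans h3)).1 hd
        rw [e, hval] at h5
        rcases hs with h | h
        · rwa [h, one_mul] at h5
        · rw [h, neg_one_mul] at h5
          exact (dvd_neg).1 h5
      · have a4 : (Pool.Agent.L0h41.PE.cntT g' h' k n T ((X : ℝ) ^ (θ / 10)) : ℝ) ≤
            smallX g h n k T ((X : ℝ) ^ (θ / 10)) := by
          exact_mod_cast cnt_le g h g' h' s hs (fun x m => hval x m) n k T ((X : ℝ) ^ (θ / 10)) h1
        linarith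
    · right
      rw [mem_Ioc]
      omega
  have h6 : ((E1 ∪ Ioc 0 T).card : ℝ) ≤ E1.card + T := by
    have := card_union_le E1 (Ioc 0 T)
    rw [Nat.card_Ioc, Nat.sub_zero] at this
    exact_mod_cast this
  have h7 : (((Ioc Z (Z + L)).filter (fun n : ℕ => NoFixed g h n ∧
        (smallX g h n k T ((X : ℝ) ^ (θ / 10)) : ℝ) < κ * lam)).card : ℝ) ≤
      (E1 ∪ Ioc 0 T).card := by exact_mod_cast card_le_card hsub
  linarith

end Pool.Agent.Results.MP_0da313_nt.LinearInY
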