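import Pool.Agent.L0h41.QN.P2

set_option autoImplicit false

/-!
# The totient system for `n` in a quadratic sequence: near-solutions with `n - x` one of the first primes

Let `a m ^ 2 + b m + c` be ANY quadratic polynomial with integer coefficients and `a > 0`, and let `2 n` run over
its even values (for instance the even squares, or `n` over the squares, or over the triangular numbers).  For almost
all `m` the system has near-solutions `x` at which `n - x` is a prime among the first `(log m) ^ (1 + κ)` primes and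
`n + x = 2 n - p` is a product of at most `5` primes, all of them larger than a fixed power of `m`: in this sense
Goldbach's problem with one tiny prime is solved for almost all members of each quadratic sequence.
-/

namespace Pool.Agent.Results.MP_967f73_nt.QuadraticSequences

open Finset Filter
open Pool.Agent.L0h41.QN

/-- The number of the integers `x` such that `n - x = a ≥ 1` is a solution of `φ(a) + 1 = a`, is one of the first `T`
primes (`π(a) ≤ T`), and `n + x = b ≥ 2` has at most `k` prime factors (counted with multiplicity), all of them at least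
`w`, and satisfies `(1 - k / w) b ≤ φ(b)`. -/
noncomputable def nearSolutions (n k : ℕ) (w T : ℝ) : ℕ :=
  {x : ℤ | ∃ a b : ℕ, (a : ℤ) = n - x ∧ (b : ℤ) = n + x ∧ 1 ≤ a ∧ Nat.totient a + 1 = a ∧
    (Nat.primeCounting a : ℝ) ≤ T ∧ 2 ≤ b ∧ b.primeFactorsList.length ≤ k ∧
    (∀ q : ℕ, q.Prime → q ∣ b → w ≤ q) ∧ (1 - k / w) * b ≤ Nat.totient b}.ncard

/-- the totient of an almost prime -/
lemma tot_low (b k : ℕ) (w : ℝ) (hw : 1 ≤ w) (_hb : 1 ≤ b) (hk : b.primeFactorsList.length ≤ k)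
    (hq : ∀ q : ℕ, q.Prime → q ∣ b → w ≤ q) : (1 - k / w) * b ≤ Nat.totient b := by
  have h1 : ((Nat.totient b : ℕ) : ℝ) = b * ∏ p ∈ b.primeFactors, (1 - (p : ℝ)⁻¹) := by
    have := Nat.totient_eq_mul_prod_factors b
    have h2 := congrArg (fun q : ℚ => (q : ℝ)) this
    push_cast at h2
    exact h2
  have hw0 : 0 < w := by linarith
  have h2 : 1 - (k : ℝ) / w ≤ ∏ p ∈ b.primeFactors, (1 - (p : ℝ)⁻¹) := by
    refine le_trans ?_ (R490.LPf.sum_le_prod b.primeFactors (fun p => (p : ℝ)⁻¹) (fun p _ => by positivity) ?_)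
    · have h3 : ∑ p ∈ b.primeFactors, (p : ℝ)⁻¹ ≤ ∑ _p ∈ b.primeFactors, w⁻¹ := by
        apply sum_le_sum
        intro p hp
        have := hq p (Nat.prime_of_mem_primeFactors hp) (Nat.dvd_of_mem_primeFactors hp)
        exact inv_anti₀ hw0 this
      rw [sum_const, nsmul_eq_mul] at h3
      have h4 : (b.primeFactors.card : ℝ) ≤ k := by
        have : b.primeFactors.card ≤ b.primeFactorsList.length := List.toFinset_card_le _
        exact_mod_cast this.trans hk
      have h5 : (b.primeFactors.card : ℝ) * w⁻¹ ≤ k * w⁻¹ := mul_le_mul_of_nonneg_right h4 (by positivity)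
      rw [div_eq_mul_inv]
      linarith
    · intro p hp
      have := (Nat.prime_of_mem_primeFactors hp).one_lt
      have h6 : (1 : ℝ) ≤ p := by exact_mod_cast this.le
      exact inv_le_one_of_one_le₀ h6
  rw [h1, mul_comm]
  exact mul_le_mul_of_nonneg_left h2 (Nat.cast_nonneg _)

lemma cnt_le (a b c : ℤ) (m n k K : ℕ) (w T : ℝ) (hw : 1 ≤ w) (hKT : (K : ℝ) ≤ T)
    (hn : 2 * (n : ℤ) = a * (m : ℤ) ^ 2 + b * m + c) (hpos : ∀ j ∈ Icc 1 K, (R490.GPa.pn j : ℤ) ≤ 2 * n) :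
    cntQ a (fun _ => b) (cG c) (GG a b c) k K m w ≤ nearSolutions n k w T := by
  classical
  unfold cntQ nearSolutions
  rw [← Set.ncard_coe_finset]
  have hfin : {x : ℤ | ∃ a b : ℕ, (a : ℤ) = n - x ∧ (b : ℤ) = n + x ∧ 1 ≤ a ∧ Nat.totient a + 1 = a ∧
      (Nat.primeCounting a : ℝ) ≤ T ∧ 2 ≤ b ∧ b.primeFactorsList.length ≤ k ∧
      (∀ q : ℕ, q.Prime → q ∣ b → w ≤ q) ∧ (1 - k / w) * b ≤ Nat.totient b}.Finite := by
    refine (Set.finite_Icc (-(n : ℤ)) n).subset ?_
    rintro x ⟨a, b, h1, h2, -⟩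
    rw [Set.mem_Icc]
    constructor
    · have : (0 : ℤ) ≤ b := Int.natCast_nonneg b
      linarith
    · have : (0 : ℤ) ≤ a := Int.natCast_nonneg a
      linarith
  refine Set.ncard_le_ncard_of_injOn (fun j => (n : ℤ) - R490.GPa.pn j) ?_ ?_ hfin
  · intro j hj
    rw [mem_coe, mem_filter] at hj
    obtain ⟨h1, -, h2, h3, h4⟩ := hj
    have hp := R490.GPa.pn_prime j
    have hF : ((FQ a (fun _ => b) (cG c) j m : ℕ) : ℤ) = 2 * n - R490.GPa.pn j := by
      unfold FQ Pool.Agent.L0h41.LW.Fq cG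
      have e : a * (m : ℤ) ^ 2 + b * m + (c - (R490.GPa.pn j : ℤ)) = 2 * n - R490.GPa.pn j := by
        rw [hn]
        ring
      rw [e]
      exact Int.natAbs_of_nonneg (by have := hpos j h1; linarith)
    refine ⟨R490.GPa.pn j, FQ a (fun _ => b) (cG c) j m, by ring, ?_, hp.one_lt.le, ?_, ?_, h2, h3, h4, ?_⟩
    · rw [hF]
      ring
    · rw [Nat.totient_prime hp]
      have := hp.one_lt
      omega
    · have e1 : Nat.primeCounting (R490.GPa.pn j) = j := by
        have e2 : Nat.primeCounting (R490.GPa.pn j) = Nat.count Nat.Prime (R490.GPa.pn j + 1) := rfl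
        rw [e2, Nat.count_succ, if_pos hp]
        unfold R490.GPa.pn
        rw [Nat.count_nth_of_infinite Nat.infinite_setOfPred_prime]
        have := (mem_Icc.1 h1).1
        omega
      rw [e1]
      have : (j : ℝ) ≤ K := by exact_mod_cast (mem_Icc.1 h1).2
      linarith
    · exact tot_low _ k w hw (by omega) h3 h4
  · intro i hi j hj hij
    rw [mem_coe, mem_filter, mem_Icc] at hi hj
    simp only at hij
    have h5 : R490.GPa.pn i = R490.GPa.pn j := by
      have : (R490.GPa.pn i : ℤ) = R490.GPa.pn j := by linarith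
      exact_mod_cast this
    exact R490.GPa.pn_inj hi.1.1 hj.1.1 h5

/-- **Near-solutions of the totient system for almost all `n` of a quadratic sequence.** -/
theorem result (a b c : ℤ) (ha : 0 < a) (θ ε κ : ℝ) (k B : ℕ) (hθ : 0 < θ) (hθ1 : θ ≤ 1)
    (hk : 1 / 8 + 25 / (6 * θ) < k) (hκ : 0 < κ) (hε : 0 < ε) :
    ∃ X₀ : ℕ, ∀ X : ℕ, X₀ ≤ X → ∀ Z L : ℕ, (X : ℝ) ^ θ ≤ L → Z + L ≤ X →
      ∀ T : ℝ, Real.log X ^ (1 + κ) ≤ T → T ≤ Real.log X ^ B →
      (({m : ℕ | m ∈ Ioc Z (Z + L) ∧ ∃ n : ℕ, 2 * (n : ℤ) = a * (m : ℤ) ^ 2 + b * m + c ∧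
        (nearSolutions n k ((X : ℝ) ^ (θ / 10)) T : ℝ) < T / Real.log X ^ (1 + κ)} : Set ℕ).ncard : ℝ) ≤ ε * L := by
  classical
  obtain ⟨s, hs⟩ : ∃ s, s = κ / 2 := ⟨_, rfl⟩
  have hs0 : 0 < s := by rw [hs]; positivity
  have tl : Tendsto (fun X : ℕ => Real.log (X : ℝ)) atTop atTop :=
    Real.tendsto_log_atTop.comp tendsto_natCast_atTop_atTop
  have tls : Tendsto (fun X : ℕ => Real.log (X : ℝ) ^ s) atTop atTop := (tendsto_rpow_atTop hs0).comp tl
  have e1 := mainGold a b c ha.ne' θ (ε / 2) s k B hθ hθ1 hk hs0 (by positivity)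
  have e2 := Pool.Agent.TH464.PW.logpow_rpow (B * 4) ((2 ^ 4 + b.natAbs + c.natAbs + 2) / (ε / 2)) θ
    (by positivity) hθ
  obtain ⟨X₀, hX₀⟩ := eventually_atTop.1 (e1.and (e2.and ((tls.eventually_ge_atTop 2).and
    ((tl.eventually_ge_atTop 1).and (eventually_ge_atTop 1)))))
  refine ⟨X₀, ?_⟩
  intro X hX Z L hL hZ T hT1 hT2
  obtain ⟨f1, f2, f3, f4, f5⟩ := hX₀ X hX
  have hX1 : (1 : ℝ) ≤ X := by exact_mod_cast f5
  have hlX0 : 0 < Real.log X := by linarith
  obtain ⟨K, hK⟩ : ∃ K, K = ⌊T⌋₊ := ⟨_, rfl⟩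
  have hsplit : Real.log X ^ (1 + κ) = Real.log X ^ (1 + s) * Real.log X ^ s := by
    rw [← Real.rpow_add hlX0]
    congr 1
    rw [hs]
    ring
  have hl1s : 1 ≤ Real.log X ^ (1 + s) := Real.one_le_rpow f4 (by linarith)
  have h2s : 2 * Real.log X ^ (1 + s) ≤ T := by
    refine le_trans ?_ hT1
    rw [hsplit, mul_comm]
    exact mul_le_mul_of_nonneg_left f3 (by linarith)
  have hT0 : 0 ≤ T := by linarith
  have hKT : (K : ℝ) ≤ T := by rw [hK]; exact Nat.floor_le hT0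
  have hKT2 : T / 2 ≤ K := by
    have : T < K + 1 := by rw [hK]; exact Nat.lt_floor_add_one T
    linarith
  have h1 := f1 Z L K hL hZ (by linarith) (hKT.trans hT2)
  obtain ⟨M0, hM0⟩ : ∃ M0, M0 = (K + 1) ^ 4 + b.natAbs + c.natAbs + 2 := ⟨_, rfl⟩
  have hM0L : (M0 : ℝ) ≤ ε / 2 * L := by
    have g1 := K_pow K B 4 (Real.log X) f4 (hKT.trans hT2)
    have g2 : (1 : ℝ) ≤ Real.log X ^ (B * 4) := one_le_pow₀ f4
    have g3 : (M0 : ℝ) ≤ (2 ^ 4 + b.natAbs + c.natAbs + 2) * Real.log X ^ (B * 4) := by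
      rw [hM0, Nat.cast_add, Nat.cast_add, Nat.cast_add]
      have g4 : (b.natAbs : ℝ) ≤ b.natAbs * Real.log X ^ (B * 4) := le_mul_of_one_le_right (Nat.cast_nonneg _) g2
      have g5 : (c.natAbs : ℝ) ≤ c.natAbs * Real.log X ^ (B * 4) := le_mul_of_one_le_right (Nat.cast_nonneg _) g2
      rw [add_mul, add_mul, add_mul, Nat.cast_ofNat]
      linarith
    refine g3.trans ?_
    calc ((2 : ℝ) ^ 4 + b.natAbs + c.natAbs + 2) * Real.log X ^ (B * 4) =
        ε / 2 * (((2 : ℝ) ^ 4 + b.natAbs + c.natAbs + 2) / (ε / 2) * Real.log X ^ (B * 4)) := by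
          field_simp
      _ ≤ ε / 2 * (X : ℝ) ^ θ := mul_le_mul_of_nonneg_left f2 (by positivity)
      _ ≤ ε / 2 * L := mul_le_mul_of_nonneg_left hL (by positivity)
  have hw1 : 1 ≤ (X : ℝ) ^ (θ / 10) := Real.one_le_rpow hX1 (by positivity)
  obtain ⟨S, hS⟩ : ∃ S, S = (Ioc Z (Z + L)).filter (fun n => AdmQ a b c n ∧
    (cntQ a (fun _ => b) (cG c) (GG a b c) k K n ((X : ℝ) ^ (θ / 10)) : ℝ) * Real.log X ^ (1 + s) < K) := ⟨_, rfl⟩
  rw [← hS] at h1
  have h2 : {m : ℕ | m ∈ Ioc Z (Z + L) ∧ ∃ n : ℕ, 2 * (n : ℤ) = a * (m : ℤ) ^ 2 + b * m + c ∧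
        (nearSolutions n k ((X : ℝ) ^ (θ / 10)) T : ℝ) < T / Real.log X ^ (1 + κ)} ⊆
      ((Ioc 0 M0 ∪ S : Finset ℕ) : Set ℕ) := by
    rintro m ⟨hm, n, hn, hlt⟩
    rw [mem_Ioc] at hm
    rw [coe_union, Set.mem_union, mem_coe, mem_coe]
    by_cases hmM : m ≤ M0
    · left
      rw [mem_Ioc]
      omega
    · right
      have hbig : ∀ j ∈ Icc 1 K, (R490.GPa.pn j : ℤ) ≤ 2 * n := by
        intro j hj
        rw [mem_Icc] at hj
        have g1 := R490.GPa.pn_le j hj.1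
        have g2 : (j + 1) ^ 4 ≤ (K + 1) ^ 4 := Nat.pow_le_pow_left (by omega) 4
        have g3 : R490.GPa.pn j + b.natAbs + c.natAbs + 2 ≤ m := by omega
        have g4 : (R490.GPa.pn j : ℤ) + b.natAbs + c.natAbs + 2 ≤ m := by exact_mod_cast g3
        rw [hn]
        have g5 : -(b.natAbs : ℤ) ≤ b := by rw [Int.natCast_natAbs]; exact neg_abs_le b
        have g6 : -(c.natAbs : ℤ) ≤ c := by rw [Int.natCast_natAbs]; exact neg_abs_le c
        have g7 : (0 : ℤ) ≤ m := Int.natCast_nonneg m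
        have g8 : (m : ℤ) ^ 2 ≤ a * (m : ℤ) ^ 2 := by nlinarith [sq_nonneg (m : ℤ)]
        have g9 : -(b.natAbs : ℤ) * m ≤ b * m := mul_le_mul_of_nonneg_right g5 g7
        have g10 : (0 : ℤ) ≤ R490.GPa.pn j := Int.natCast_nonneg _
        have g11 : (0 : ℤ) ≤ (b.natAbs : ℤ) := Int.natCast_nonneg _
        have g12 : (0 : ℤ) ≤ (c.natAbs : ℤ) := Int.natCast_nonneg _
        nlinarith [mul_nonneg g7 (by linarith : (0 : ℤ) ≤ m - b.natAbs - 1)]
      have hc := cnt_le a b c m n k K _ T hw1 hKT hn hbig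
      rw [hS, mem_filter, mem_Ioc]
      refine ⟨hm, ⟨?_, ?_⟩, ?_⟩
      · rw [← hn]
        positivity
      · rw [← hn]
        exact dvd_mul_right _ _
      · have hcr : (cntQ a (fun _ => b) (cG c) (GG a b c) k K m ((X : ℝ) ^ (θ / 10)) : ℝ) ≤
            nearSolutions n k ((X : ℝ) ^ (θ / 10)) T := by exact_mod_cast hc
        have g1 : (cntQ a (fun _ => b) (cG c) (GG a b c) k K m ((X : ℝ) ^ (θ / 10)) : ℝ) * Real.log X ^ (1 + κ) < T := by
          rw [lt_div_iff₀ (by positivity)] at hlt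
          refine lt_of_le_of_lt ?_ hlt
          exact mul_le_mul_of_nonneg_right hcr (by positivity)
        rw [hsplit] at g1
        have g0 : (0 : ℝ) ≤ (cntQ a (fun _ => b) (cG c) (GG a b c) k K m ((X : ℝ) ^ (θ / 10)) : ℝ) *
          Real.log X ^ (1 + s) := by positivity
        have g2 := mul_le_mul_of_nonneg_left f3 g0
        linarith
  have h3 := Set.ncard_le_ncard h2 (Finset.finite_toSet _)
  rw [Set.ncard_coe_finset] at h3
  have h4 := h3.trans (card_union_le _ _)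
  rw [Nat.card_Ioc, Nat.sub_zero] at h4
  have h5 : (({m : ℕ | m ∈ Ioc Z (Z + L) ∧ ∃ n : ℕ, 2 * (n : ℤ) = a * (m : ℤ) ^ 2 + b * m + c ∧
        (nearSolutions n k ((X : ℝ) ^ (θ / 10)) T : ℝ) < T / Real.log X ^ (1 + κ)} : Set ℕ).ncard : ℝ) ≤
      M0 + S.card := by exact_mod_cast h4
  linarith

end Pool.Agent.Results.MP_967f73_nt.QuadraticSequences
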